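import Mathlib

/-!
Faces of a closed convex body: supporting faces, opposite faces under a central symmetry,
purity of faces with non-empty interior in the boundary, finiteness for polytopes.
-/

set_option autoImplicit false

open Set Topology Filter

namespace Pool.Agent.Lib.MP_7600d1_co

variable {E : Type*} [NormedAddCommGroup E] [NormedSpace ℝ E]

/-- A non-empty proper exposed face. -/
def ProperFace (Q F : Set E) : Prop := F.Nonempty ∧ F ≠ Q ∧ IsExposed ℝ Q F

/-- Description of a proper face by a functional and a level. -/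
theorem ProperFace.exists_level {Q F : Set E} (hF : ProperFace Q F) :
    ∃ (l : StrongDual ℝ E) (M : ℝ), (∀ y ∈ Q, l y ≤ M) ∧ F = {x ∈ Q | l x = M} ∧
      ∀ q ∈ interior Q, l q < M := by
  obtain ⟨hne, hneQ, hexp⟩ := hF
  obtain ⟨l, hl⟩ := hexp hne
  obtain ⟨w, hw⟩ := hne
  have hw' := hw
  rw [hl] at hw'
  have hFeq : F = {x ∈ Q | l x = l w} := by
    rw [hl]
    ext x
    constructor
    · rintro ⟨hx, hx2⟩
      exact ⟨hx, le_antisymm (hw'.2 x hx) (hx2 w hw'.1)⟩
    · rintro ⟨hx, hx2⟩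
      exact ⟨hx, fun y hy => hx2 ▸ hw'.2 y hy⟩
  refine ⟨l, l w, hw'.2, hFeq, ?_⟩
  intro q hq
  by_contra hlt
  have hqQ : q ∈ Q := interior_subset hq
  have heq : l q = l w := le_antisymm (hw'.2 q hqQ) (not_lt.1 hlt)
  apply hneQ
  rw [hFeq]
  ext y
  refine ⟨fun h => h.1, fun hy => ⟨hy, ?_⟩⟩
  -- move from q away from y a little
  have hc : ContinuousAt (fun t : ℝ => q + t • (q - y)) 0 := by fun_prop
  have h0 : (fun t : ℝ => q + t • (q - y)) 0 ∈ interior Q := by simpa using hq
  have hev : ∀ᶠ t in 𝓝 (0 : ℝ), q + t • (q - y) ∈ interior Q :=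
    hc.eventually (isOpen_interior.mem_nhds h0)
  have hev' : ∀ᶠ t in 𝓝[>] (0 : ℝ), q + t • (q - y) ∈ interior Q ∧ 0 < t :=
    (hev.filter_mono nhdsWithin_le_nhds).and self_mem_nhdsWithin
  obtain ⟨t, ht1, ht2⟩ := hev'.exists
  have h1 := hw'.2 _ (interior_subset ht1)
  simp only [map_add, map_smul, map_sub, smul_eq_mul] at h1
  have h2 := hw'.2 y hy
  have h3 : t * (l q - l y) ≤ 0 := by linarith
  have h4 : l q - l y ≤ 0 := by
    by_contra hh
    push Not at hh
    have := mul_pos ht2 hh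
    linarith
  linarith

theorem ProperFace.subset {Q F : Set E} (hF : ProperFace Q F) : F ⊆ Q := hF.2.2.subset

theorem ProperFace.subset_frontier {Q F : Set E} (hF : ProperFace Q F) :
    F ⊆ frontier Q := by
  obtain ⟨l, M, -, hFeq, hint⟩ := hF.exists_level
  intro x hx
  refine ⟨subset_closure (hF.subset hx), fun hxi => ?_⟩
  have h1 := hint x hxi
  rw [hFeq] at hx
  exact absurd hx.2 h1.ne

/-- Every boundary point lies in a proper face. -/
theorem exists_properFace_of_mem_frontier {Q : Set E} (hQc : IsClosed Q) (hQ : Convex ℝ Q)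
    (hint : (interior Q).Nonempty) {y : E} (hy : y ∈ frontier Q) :
    ∃ F, ProperFace Q F ∧ y ∈ F := by
  have hyQ : y ∈ Q := hQc.closure_eq ▸ hy.1
  obtain ⟨l, hl⟩ := geometric_hahn_banach_open_point hQ.interior isOpen_interior hy.2
  obtain ⟨q, hq⟩ := hint
  have hle : ∀ z ∈ Q, l z ≤ l y := by
    intro z hz
    have hcl : z ∈ closure (interior Q) := by
      rw [hQ.closure_interior_eq_closure_of_nonempty_interior ⟨q, hq⟩]
      exact subset_closure hz
    have : closure (interior Q) ⊆ {x | l x ≤ l y} :=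
      closure_minimal (fun a ha => (hl a ha).le) (isClosed_le l.continuous continuous_const)
    exact this hcl
  refine ⟨l.toExposed Q, ⟨⟨y, hyQ, hle⟩, ?_, ContinuousLinearMap.toExposed.isExposed⟩, hyQ, hle⟩
  intro heq
  have hqF : q ∈ l.toExposed Q := by rw [heq]; exact interior_subset hq
  have := hqF.2 y hyQ
  have := hl q hq
  linarith

/-- The face opposite to `F` under the point reflection in `c`. -/
def opp (c : E) (F : Set E) : Set E := {x | (2 : ℝ) • c - x ∈ F}

theorem ProperFace.opp {Q F : Set E} {c : E} (hc : ∀ x ∈ Q, (2 : ℝ) • c - x ∈ Q)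
    (hF : ProperFace Q F) : ProperFace Q (opp c F) := by
  obtain ⟨l, M, hle, hFeq, hint⟩ := hF.exists_level
  obtain ⟨w, hw⟩ := hF.1
  have hsub : Pool.Agent.Lib.MP_7600d1_co.opp c F ⊆ Q := by
    intro x hx
    have := hc _ (hF.subset hx)
    simpa using this
  refine ⟨⟨(2 : ℝ) • c - w, by simpa [Pool.Agent.Lib.MP_7600d1_co.opp] using hw⟩, ?_, ?_⟩
  · intro heq
    apply hF.2.1
    refine Subset.antisymm hF.subset fun x hx => ?_
    have h1 : (2 : ℝ) • c - x ∈ Pool.Agent.Lib.MP_7600d1_co.opp c F := by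
      rw [heq]; exact hc x hx
    simpa [Pool.Agent.Lib.MP_7600d1_co.opp] using h1
  · intro _
    refine ⟨-l, ?_⟩
    ext x
    have hwM : l w = M := by
      have := hw; rw [hFeq] at this; exact this.2
    constructor
    · intro hx
      refine ⟨hsub hx, fun y hy => ?_⟩
      have h1 : (2 : ℝ) • c - x ∈ F := hx
      rw [hFeq] at h1
      have h2 := hle _ (hc y hy)
      have h3 := h1.2
      simp only [map_sub, map_smul, smul_eq_mul, neg_apply] at h2 h3 ⊢
      linarith
    · rintro ⟨hxQ, hx⟩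
      show (2 : ℝ) • c - x ∈ F
      rw [hFeq]
      refine ⟨hc x hxQ, le_antisymm (hle _ (hc x hxQ)) ?_⟩
      have h1 := hx _ (hc w (hF.subset hw))
      simp only [map_sub, map_smul, smul_eq_mul, neg_apply] at h1 ⊢
      linarith

theorem ProperFace.not_mem_opp {Q F : Set E} {c : E} (hc : ∀ x ∈ Q, (2 : ℝ) • c - x ∈ Q)
    (hF : ProperFace Q F) {x : E} (hx : x ∈ F)
    (hx' : x ∈ Pool.Agent.Lib.MP_7600d1_co.opp c F) : False := by
  obtain ⟨l, M, hle, hFeq, -⟩ := hF.exists_level
  apply hF.2.1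
  have h1 : (2 : ℝ) • c - x ∈ F := hx'
  rw [hFeq] at hx h1
  have h2 := hx.2
  have h3 := h1.2
  simp only [map_sub, map_smul, smul_eq_mul] at h3
  rw [hFeq]
  ext y
  refine ⟨fun h => h.1, fun hy => ⟨hy, le_antisymm (hle y hy) ?_⟩⟩
  have h4 := hle _ (hc y hy)
  simp only [map_sub, map_smul, smul_eq_mul] at h4
  linarith

/-- `y` has a neighbourhood in the boundary of `Q` contained in `F`. -/
def ThickAt (Q F : Set E) (y : E) : Prop :=
  y ∈ F ∧ ∃ U, IsOpen U ∧ y ∈ U ∧ U ∩ frontier Q ⊆ F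

theorem frontier_reflect {Q : Set E} {c : E} (hc : ∀ x ∈ Q, (2 : ℝ) • c - x ∈ Q) {x : E}
    (hx : x ∈ frontier Q) : (2 : ℝ) • c - x ∈ frontier Q := by
  let h : E ≃ₜ E := Homeomorph.subLeft ((2 : ℝ) • c)
  have hpre : h ⁻¹' Q = Q := by
    ext y
    constructor
    · intro hy
      have := hc _ hy
      simpa [h] using this
    · intro hy
      exact hc y hy
  have h1 : x ∈ h ⁻¹' frontier Q := by
    rw [h.preimage_frontier, hpre]; exact hx
  exact h1

theorem ThickAt.opp {Q F : Set E} {c y : E} (hc : ∀ x ∈ Q, (2 : ℝ) • c - x ∈ Q)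
    (h : ThickAt Q F y) : ThickAt Q (opp c F) ((2 : ℝ) • c - y) := by
  obtain ⟨hy, U, hU, hyU, hUF⟩ := h
  refine ⟨by simpa [Pool.Agent.Lib.MP_7600d1_co.opp] using hy,
    (fun x => (2 : ℝ) • c - x) ⁻¹' U, hU.preimage (by fun_prop), by simpa using hyU, ?_⟩
  rintro x ⟨hx1, hx2⟩
  exact hUF ⟨hx1, frontier_reflect hc hx2⟩

/-- Purity: thick points are dense in a face that has one. -/
theorem ThickAt.dense {Q F : Set E} (hQ : Convex ℝ Q) (hint : (interior Q).Nonempty)
    (hF : ProperFace Q F) {y₀ : E} (h : ThickAt Q F y₀) {y : E} (hy : y ∈ F)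
    {W : Set E} (hW : IsOpen W) (hyW : y ∈ W) : ∃ y' ∈ W, ThickAt Q F y' := by
  obtain ⟨l, M, hle, hFeq, hlt⟩ := hF.exists_level
  obtain ⟨hy₀, U, hU, hy₀U, hUF⟩ := h
  obtain ⟨q, hq⟩ := hint
  obtain ⟨r, hr, hball⟩ := Metric.isOpen_iff.1 hU y₀ hy₀U
  have hFconv : Convex ℝ F := hF.2.2.convex hQ
  -- the part of the ball below the supporting hyperplane is interior
  have hhalf : Metric.ball y₀ r ∩ {x | l x < M} ⊆ interior Q := by
    have hconv : Convex ℝ (Metric.ball y₀ r ∩ {x | l x < M}) :=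
      (convex_ball y₀ r).inter (convex_halfSpace_lt (l : E →ₗ[ℝ] ℝ).isLinear M)
    refine IsPreconnected.subset_left_of_subset_union isOpen_interior
      (isClosed_closure (s := Q)).isOpen_compl ?_ ?_ ?_ hconv.isPreconnected
    · exact disjoint_left.2 fun x hx hx' => hx' (subset_closure (interior_subset hx))
    · rintro x ⟨hx1, hx2⟩
      by_cases hxi : x ∈ interior Q
      · exact Or.inl hxi
      · right
        intro hxc
        have hxF : x ∈ F := hUF ⟨hball hx1, hxc, hxi⟩
        rw [hFeq] at hxF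
        exact absurd hxF.2 (ne_of_lt hx2)
    · have hc : ContinuousAt (fun t : ℝ => y₀ + t • (q - y₀)) 0 := by fun_prop
      have h0 : (fun t : ℝ => y₀ + t • (q - y₀)) 0 ∈ Metric.ball y₀ r := by simpa using hr
      have hev : ∀ᶠ t in 𝓝 (0 : ℝ), y₀ + t • (q - y₀) ∈ Metric.ball y₀ r :=
        hc.eventually (Metric.isOpen_ball.mem_nhds h0)
      have hev' : ∀ᶠ t in 𝓝[>] (0 : ℝ), y₀ + t • (q - y₀) ∈ Metric.ball y₀ r ∧ t ∈ Ioc (0 : ℝ) 1 :=
        (hev.filter_mono nhdsWithin_le_nhds).and (Ioc_mem_nhdsGT one_pos)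
      obtain ⟨t, ht1, ht2⟩ := hev'.exists
      have hi := hQ.add_smul_sub_mem_interior (hF.subset hy₀) hq ht2
      exact ⟨_, ⟨ht1, hlt _ hi⟩, hi⟩
  have hc : ContinuousAt (fun t : ℝ => y + t • (y₀ - y)) 0 := by fun_prop
  have h0 : (fun t : ℝ => y + t • (y₀ - y)) 0 ∈ W := by simpa using hyW
  have hev : ∀ᶠ t in 𝓝 (0 : ℝ), y + t • (y₀ - y) ∈ W := hc.eventually (hW.mem_nhds h0)
  have hev' : ∀ᶠ t in 𝓝[>] (0 : ℝ), y + t • (y₀ - y) ∈ W ∧ t ∈ Ioc (0 : ℝ) 1 :=
    (hev.filter_mono nhdsWithin_le_nhds).and (Ioc_mem_nhdsGT one_pos)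
  obtain ⟨t, ht1, ht2⟩ := hev'.exists
  have htne : t ≠ 0 := ht2.1.ne'
  refine ⟨_, ht1, hFconv.add_smul_sub_mem hy hy₀ ⟨ht2.1.le, ht2.2⟩,
    (fun z => y + t⁻¹ • (z - y)) ⁻¹' Metric.ball y₀ r,
    Metric.isOpen_ball.preimage (by fun_prop), ?_, ?_⟩
  · simp [smul_smul, inv_mul_cancel₀ htne, hr]
  · rintro z ⟨hz1, hz2⟩
    have hyM : l y = M := by
      have := hy; rw [hFeq] at this; exact this.2
    have hzle : l z ≤ M := by
      have : closure Q ⊆ {x | l x ≤ M} :=
        closure_minimal hle (isClosed_le l.continuous continuous_const)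
      exact this hz2.1
    by_cases hzM : l z = M
    · -- then the point is on the hyperplane; show it is in Q
      have hz0 : y + t⁻¹ • (z - y) ∈ closure (interior Q) := by
        have hlz0 : l (y + t⁻¹ • (z - y)) = M := by
          simp [map_add, map_smul, map_sub, hyM, hzM]
        set z0 := y + t⁻¹ • (z - y) with hz0def
        have hc2 : ContinuousAt (fun s : ℝ => z0 + s • (q - z0)) 0 := by fun_prop
        have h02 : (fun s : ℝ => z0 + s • (q - z0)) 0 ∈ Metric.ball y₀ r := by simpa using hz1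
        have hev2 : ∀ᶠ s in 𝓝 (0 : ℝ), z0 + s • (q - z0) ∈ Metric.ball y₀ r :=
          hc2.eventually (Metric.isOpen_ball.mem_nhds h02)
        have htend : Tendsto (fun s : ℝ => z0 + s • (q - z0)) (𝓝[>] 0) (𝓝 z0) := by
          have := hc2.tendsto
          simp only [zero_smul, add_zero] at this
          exact this.mono_left nhdsWithin_le_nhds
        refine mem_closure_of_tendsto htend ?_
        filter_upwards [hev2.filter_mono nhdsWithin_le_nhds, self_mem_nhdsWithin] with s hs1 hs2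
        refine hhalf ⟨hs1, ?_⟩
        have hq' := hlt q hq
        have hs2' : 0 < s := hs2
        show l (z0 + s • (q - z0)) < M
        simp only [map_add, map_smul, map_sub, smul_eq_mul, hlz0]
        nlinarith
      have hz0f : y + t⁻¹ • (z - y) ∈ frontier Q := by
        refine ⟨closure_mono interior_subset hz0, fun hi => ?_⟩
        have := hlt _ hi
        simp [map_add, map_smul, map_sub, hyM, hzM] at this
      have hz0F : y + t⁻¹ • (z - y) ∈ F := hUF ⟨hball hz1, hz0f⟩
      have := hFconv.add_smul_sub_mem hy hz0F ⟨ht2.1.le, ht2.2⟩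
      simpa [smul_smul, mul_inv_cancel₀ htne] using this
    · exfalso
      have hzlt : l z < M := lt_of_le_of_ne hzle hzM
      have hi : y + t⁻¹ • (z - y) ∈ interior Q := by
        refine hhalf ⟨hz1, ?_⟩
        show l (y + t⁻¹ • (z - y)) < M
        simp only [map_add, map_smul, map_sub, smul_eq_mul, hyM]
        have : 0 < t⁻¹ := inv_pos.2 ht2.1
        nlinarith
      have := hQ.add_smul_sub_mem_interior (hF.subset hy) hi ht2
      apply hz2.2
      simpa [smul_smul, mul_inv_cancel₀ htne] using this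

/-- A polytope has finitely many exposed faces. -/
theorem finite_properFace (S : Finset E) :
    {F | ProperFace (convexHull ℝ (S : Set E)) F}.Finite := by
  have hcomp : IsCompact (convexHull ℝ (S : Set E)) := S.finite_toSet.isCompact_convexHull ℝ
  have hconv : Convex ℝ (convexHull ℝ (S : Set E)) := convex_convexHull ℝ _
  refine Finite.of_finite_image (f := fun F => F.extremePoints ℝ) ?_ ?_
  · refine (S.finite_toSet.finite_subsets).subset ?_
    rintro _ ⟨F, hF, rfl⟩
    exact (hF.2.2.isExtreme.extremePoints_subset_extremePoints).trans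
      extremePoints_convexHull_subset
  · intro F hF G hG hFG
    have h1 := closure_convexHull_extremePoints (hF.2.2.isCompact hcomp) (hF.2.2.convex hconv)
    have h2 := closure_convexHull_extremePoints (hG.2.2.isCompact hcomp) (hG.2.2.convex hconv)
    rw [← h1, ← h2]
    simp only at hFG
    rw [hFG]

end Pool.Agent.Lib.MP_7600d1_co
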