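import Mathlib
import Pool.Agent.Lib.MP_7600d1_co.Faces

/-!
Polytopes given by finitely many inequalities `a i x ≤ 1`, and the combinatorial shadow of a
refinement homeomorphism onto the boundary of a centrally symmetric convex body.
-/

set_option autoImplicit false
set_option linter.unusedSectionVars false

open Set Topology Filter

namespace Pool.Agent.Lib.MP_7600d1_co

variable {E : Type*} [NormedAddCommGroup E] [NormedSpace ℝ E]
variable {ι : Type*} [Finite ι]

/-- The polyhedron cut out by the inequalities `a i x ≤ 1`. -/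
def hpoly (a : ι → StrongDual ℝ E) : Set E := {x | ∀ i, a i x ≤ 1}

theorem hpoly_isClosed (a : ι → StrongDual ℝ E) : IsClosed (hpoly a) := by
  have : hpoly a = ⋂ i, {x | a i x ≤ 1} := by ext x; simp [hpoly]
  rw [this]
  exact isClosed_iInter fun i => isClosed_le (a i).continuous continuous_const

theorem hpoly_convex (a : ι → StrongDual ℝ E) : Convex ℝ (hpoly a) := by
  have : hpoly a = ⋂ i, {x | a i x ≤ 1} := by ext x; simp [hpoly]
  rw [this]
  exact convex_iInter fun i => convex_halfSpace_le (a i : E →ₗ[ℝ] ℝ).isLinear 1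

theorem isOpen_strict (a : ι → StrongDual ℝ E) (p : ι → Prop) :
    IsOpen {x : E | ∀ i, p i → a i x < 1} := by
  have : {x : E | ∀ i, p i → a i x < 1} = ⋂ i, {x | p i → a i x < 1} := by ext x; simp
  rw [this]
  refine isOpen_iInter_of_finite fun i => ?_
  by_cases hp : p i
  · simpa [hp] using isOpen_lt (a i).continuous continuous_const
  · simp [hp]

theorem mem_interior_hpoly (a : ι → StrongDual ℝ E) {x : E} (hx : ∀ i, a i x < 1) :
    x ∈ interior (hpoly a) := by
  refine interior_maximal (t := {x : E | ∀ i, True → a i x < 1}) ?_ (isOpen_strict a _) ?_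
  · intro y hy i
    exact (hy i trivial).le
  · intro i _
    exact hx i

theorem mem_frontier_hpoly (a : ι → StrongDual ℝ E) {x : E} :
    x ∈ frontier (hpoly a) ↔ x ∈ hpoly a ∧ ∃ i, a i x = 1 := by
  rw [(hpoly_isClosed a).frontier_eq]
  constructor
  · rintro ⟨hx, hxi⟩
    refine ⟨hx, ?_⟩
    by_contra hne
    push Not at hne
    exact hxi (mem_interior_hpoly a fun i => lt_of_le_of_ne (hx i) (hne i))
  · rintro ⟨hx, i, hi⟩
    refine ⟨hx, fun hxi => ?_⟩
    have hc : ContinuousAt (fun t : ℝ => x + t • x) 0 := by fun_prop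
    have h0 : (fun t : ℝ => x + t • x) 0 ∈ interior (hpoly a) := by simpa using hxi
    have hev : ∀ᶠ t in 𝓝 (0 : ℝ), x + t • x ∈ interior (hpoly a) :=
      hc.eventually (isOpen_interior.mem_nhds h0)
    have hev' : ∀ᶠ t in 𝓝[>] (0 : ℝ), x + t • x ∈ interior (hpoly a) ∧ 0 < t :=
      (hev.filter_mono nhdsWithin_le_nhds).and self_mem_nhdsWithin
    obtain ⟨t, ht1, ht2⟩ := hev'.exists
    have := interior_subset ht1 i
    simp only [map_add, map_smul, smul_eq_mul, hi] at this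
    linarith

/-- If every inequality tight at `p` is tight at `x`, the segment from `x` to `p` extends. -/
theorem exists_openSegment (a : ι → StrongDual ℝ E) {p x : E} (hp : p ∈ hpoly a)
    (h : ∀ j, a j p = 1 → a j x = 1) : ∃ q ∈ hpoly a, p ∈ openSegment ℝ x q := by
  have hc : ContinuousAt (fun t : ℝ => p + t • (p - x)) 0 := by fun_prop
  have h0 : (fun t : ℝ => p + t • (p - x)) 0 ∈ {y : E | ∀ i, a i p ≠ 1 → a i y < 1} := by
    intro i hi
    simpa using lt_of_le_of_ne (hp i) hi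
  have hev := hc.eventually ((isOpen_strict a (fun i => a i p ≠ 1)).mem_nhds h0)
  have hev' := (hev.filter_mono (nhdsWithin_le_nhds (s := Ioi (0 : ℝ)))).and self_mem_nhdsWithin
  obtain ⟨t, ht1, ht2⟩ := hev'.exists
  have ht : 0 < t := ht2
  refine ⟨p + t • (p - x), fun i => ?_, t / (1 + t), 1 / (1 + t), by positivity, by positivity,
    by field_simp; ring, ?_⟩
  · by_cases hi : a i p = 1
    · simp [map_add, map_smul, map_sub, hi, h i hi]
    · exact (ht1 i hi).le
  · have h1 : (1 + t) ≠ 0 := by positivity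
    have e1 : (t / (1 + t)) • x + (1 / (1 + t)) • (p + t • (p - x))
        = (1 / (1 + t) * (1 + t)) • p := by
      module
    rw [e1]
    simp [h1]

theorem hpoly_eq_convexHull (a : ι → StrongDual ℝ E) (hcomp : IsCompact (hpoly a)) :
    ∃ S : Finset E, hpoly a = convexHull ℝ (S : Set E) := by
  have hfin : ((hpoly a).extremePoints ℝ).Finite := by
    refine Finite.of_finite_image (f := fun x => {i | a i x = 1}) (toFinite _) ?_
    intro x hx y hy hxy
    have h : ∀ j, a j x = 1 → a j y = 1 := by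
      intro j hj
      have : j ∈ ({i | a i x = 1} : Set ι) := hj
      simp only at hxy
      rw [hxy] at this
      exact this
    obtain ⟨q, hq, hxq⟩ := exists_openSegment a hx.1 h
    exact (hx.2 hy.1 hq hxq).symm
  refine ⟨hfin.toFinset, ?_⟩
  rw [hfin.coe_toFinset, ← (hfin.isClosed_convexHull ℝ).closure_eq,
    closure_convexHull_extremePoints hcomp (hpoly_convex a)]

/-- The refinement property of a boundary homeomorphism. -/
def Refines (P Q : Set E) (φ : ↥(frontier P) ≃ₜ ↥(frontier Q)) : Prop :=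
  ∀ F : Set E, (F.Nonempty ∧ F ≠ Q ∧ IsExposed ℝ Q F) →
    ∃ 𝒮 : Set (Set E), (∀ G ∈ 𝒮, G.Nonempty ∧ G ≠ P ∧ IsExposed ℝ P G) ∧
      ∀ x : ↥(frontier P), ((x : E) ∈ ⋃₀ 𝒮 ↔ ((φ x : E) ∈ F))

/-- The facet `i` of `hpoly a` is sent into `F`. -/
def Covers (a : ι → StrongDual ℝ E) {Q : Set E}
    (φ : ↥(frontier (hpoly a)) ≃ₜ ↥(frontier Q)) (F : Set E) (i : ι) : Prop :=
  ∀ x : ↥(frontier (hpoly a)), a i x = 1 → (φ x : E) ∈ F

variable {a : ι → StrongDual ℝ E} {Q : Set E} {φ : ↥(frontier (hpoly a)) ≃ₜ ↥(frontier Q)}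

theorem covers_of_generic (hφ : Refines (hpoly a) Q φ) {F : Set E} (hF : ProperFace Q F)
    {i : ι} (p : ↥(frontier (hpoly a))) (hp : ∀ j, j ≠ i → a j p < 1) (hpF : (φ p : E) ∈ F) :
    Covers a φ F i := by
  obtain ⟨𝒮, h𝒮, hiff⟩ := hφ F hF
  obtain ⟨G, hG, hpG⟩ := (hiff p).2 hpF
  intro x hx
  refine (hiff x).1 ⟨G, hG, ?_⟩
  have hpP := ((mem_frontier_hpoly a).1 p.2).1
  have hxP := ((mem_frontier_hpoly a).1 x.2).1
  obtain ⟨q, hq, hpq⟩ := exists_openSegment a (x := x) hpP (fun j hj => by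
    by_cases hji : j = i
    · rw [hji]; exact hx
    · exact absurd hj (hp j hji).ne)
  exact (h𝒮 G hG).2.2.isExtreme.left_mem_of_mem_openSegment hxP hq hpG hpq

variable (g : ι → E) (hg1 : ∀ i, a i (g i) = 1) (hg2 : ∀ i j, j ≠ i → a j (g i) < 1)
include hg1 hg2

theorem g_mem (i : ι) : g i ∈ hpoly a := by
  intro j
  by_cases hji : j = i
  · rw [hji]; exact (hg1 i).le
  · exact (hg2 i j hji).le

theorem exists_covers (hφ : Refines (hpoly a) Q φ) (hQc : IsClosed Q) (hQ : Convex ℝ Q)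
    (hint : (interior Q).Nonempty) (i : ι) : ∃ F, ProperFace Q F ∧ Covers a φ F i := by
  let p : ↥(frontier (hpoly a)) :=
    ⟨g i, (mem_frontier_hpoly a).2 ⟨g_mem g hg1 hg2 i, i, hg1 i⟩⟩
  obtain ⟨F, hF, hpF⟩ := exists_properFace_of_mem_frontier hQc hQ hint (φ p).2
  exact ⟨F, hF, covers_of_generic hφ hF p (fun j hj => hg2 i j hj) hpF⟩

theorem thick_of_covers {F : Set E} {i : ι} (h : Covers a φ F i) : ∃ y, ThickAt Q F y := by
  let p : ↥(frontier (hpoly a)) :=
    ⟨g i, (mem_frontier_hpoly a).2 ⟨g_mem g hg1 hg2 i, i, hg1 i⟩⟩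
  have hO : IsOpen ((fun y : ↥(frontier Q) => (φ.symm y : E)) ⁻¹'
      {x : E | ∀ j, j ≠ i → a j x < 1}) :=
    (isOpen_strict a _).preimage (continuous_subtype_val.comp φ.symm.continuous)
  obtain ⟨U, hU, hUeq⟩ := isOpen_induced_iff.1 hO
  refine ⟨φ p, h p (hg1 i), U, hU, ?_, ?_⟩
  · have : φ p ∈ Subtype.val ⁻¹' U := by
      rw [hUeq]
      intro j hj
      simpa using hg2 i j hj
    exact this
  · rintro y ⟨hy1, hy2⟩
    have h1 : (⟨y, hy2⟩ : ↥(frontier Q)) ∈ Subtype.val ⁻¹' U := hy1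
    rw [hUeq] at h1
    obtain ⟨-, j, hj⟩ := (mem_frontier_hpoly a).1 (φ.symm ⟨y, hy2⟩).2
    have hji : j = i := by
      by_contra hne
      exact absurd hj (h1 j hne).ne
    have := h (φ.symm ⟨y, hy2⟩) (hji ▸ hj)
    simpa using this

theorem exists_covers_of_thick (hφ : Refines (hpoly a) Q φ) (hQ : Convex ℝ Q)
    (hint : (interior Q).Nonempty) {F : Set E} (hF : ProperFace Q F) {y₀ : E}
    (hth : ThickAt Q F y₀) (x : ↥(frontier (hpoly a))) (hx : (φ x : E) ∈ F) :
    ∃ i, a i x = 1 ∧ Covers a φ F i := by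
  by_contra hne
  push Not at hne
  have hxP := ((mem_frontier_hpoly a).1 x.2).1
  have hO : IsOpen ((fun y : ↥(frontier Q) => (φ.symm y : E)) ⁻¹'
      {z : E | ∀ j, Covers a φ F j → a j z < 1}) :=
    (isOpen_strict a _).preimage (continuous_subtype_val.comp φ.symm.continuous)
  obtain ⟨W, hW, hWeq⟩ := isOpen_induced_iff.1 hO
  have hxW : (φ x : E) ∈ W := by
    have : φ x ∈ Subtype.val ⁻¹' W := by
      rw [hWeq]
      intro j hj
      simpa using lt_of_le_of_ne (hxP j) (fun h => hne j h hj)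
    exact this
  obtain ⟨y', hy'W, hy'F, U, hU, hy'U, hUF⟩ := hth.dense hQ hint hF hx hW hxW
  have hy'f : y' ∈ frontier Q := hF.subset_frontier hy'F
  set x' := φ.symm ⟨y', hy'f⟩ with hx'def
  obtain ⟨hx'P, i, hi⟩ := (mem_frontier_hpoly a).1 x'.2
  have hO2 : IsOpen ((fun z : ↥(frontier (hpoly a)) => (φ z : E)) ⁻¹' (W ∩ U)) :=
    (hW.inter hU).preimage (continuous_subtype_val.comp φ.continuous)
  obtain ⟨V, hV, hVeq⟩ := isOpen_induced_iff.1 hO2
  have hx'V : (x' : E) ∈ V := by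
    have : x' ∈ Subtype.val ⁻¹' V := by
      rw [hVeq]
      simp only [hx'def, mem_preimage, Homeomorph.apply_symm_apply]
      exact ⟨hy'W, hy'U⟩
    exact this
  have hc : ContinuousAt (fun t : ℝ => (x' : E) + t • (g i - x')) 0 := by fun_prop
  have h0 : (fun t : ℝ => (x' : E) + t • (g i - x')) 0 ∈ V := by simpa using hx'V
  have hev := hc.eventually (hV.mem_nhds h0)
  have hev' := (hev.filter_mono (nhdsWithin_le_nhds (s := Ioi (0 : ℝ)))).and
    (Ioc_mem_nhdsGT one_pos)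
  obtain ⟨t, ht1, ht2⟩ := hev'.exists
  have hzi : a i ((x' : E) + t • (g i - x')) = 1 := by
    simp [map_add, map_smul, map_sub, hi, hg1 i]
  have hzj : ∀ j, j ≠ i → a j ((x' : E) + t • (g i - x')) < 1 := by
    intro j hj
    have h1 := hg2 i j hj
    have h2 := hx'P j
    simp only [map_add, map_smul, map_sub, smul_eq_mul]
    nlinarith [ht2.1, ht2.2]
  have hzP : (x' : E) + t • (g i - x') ∈ hpoly a := by
    intro j
    by_cases hji : j = i
    · rw [hji]; exact hzi.le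
    · exact (hzj j hji).le
  let z : ↥(frontier (hpoly a)) := ⟨_, (mem_frontier_hpoly a).2 ⟨hzP, i, hzi⟩⟩
  have hz : z ∈ Subtype.val ⁻¹' V := ht1
  rw [hVeq] at hz
  have hzF : (φ z : E) ∈ F := hUF ⟨hz.2, (φ z).2⟩
  have hcov : Covers a φ F i := covers_of_generic hφ hF z hzj hzF
  have hz2 : φ z ∈ Subtype.val ⁻¹' W := hz.1
  rw [hWeq] at hz2
  have := hz2 i hcov
  simp only [Homeomorph.symm_apply_apply] at this
  exact absurd hzi this.ne

/-- Two facets meet. -/
def Meet (a : ι → StrongDual ℝ E) (i j : ι) : Prop := ∃ x ∈ hpoly a, a i x = 1 ∧ a j x = 1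

theorem exists_opposite (hφ : Refines (hpoly a) Q φ) (hQ : Convex ℝ Q)
    (hint : (interior Q).Nonempty) {c : E} (hc : ∀ x ∈ Q, (2 : ℝ) • c - x ∈ Q)
    {F : Set E} (hF : ProperFace Q F) {i : ι} (h : Covers a φ F i) :
    ∃ j, ∀ k, Covers a φ F k → ¬ Meet a k j := by
  obtain ⟨y, hy⟩ := thick_of_covers g hg1 hg2 h
  have hy' := hy.opp hc
  have hF' := hF.opp hc
  have hyf := hF'.subset_frontier hy'.1
  obtain ⟨j, -, hj⟩ := exists_covers_of_thick g hg1 hg2 hφ hQ hint hF' hy' (φ.symm ⟨_, hyf⟩)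
    (by simpa using hy'.1)
  refine ⟨j, fun k hk => ?_⟩
  rintro ⟨x, hxP, hx1, hx2⟩
  let x' : ↥(frontier (hpoly a)) := ⟨x, (mem_frontier_hpoly a).2 ⟨hxP, k, hx1⟩⟩
  exact hF.not_mem_opp hc (hk x' hx1) (hj x' hx2)

end Pool.Agent.Lib.MP_7600d1_co
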