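import Mathlib
import Pool.Agent.Lib.MP_7600d1_co.HPoly

/-!
The family of centrally symmetric 4-polytopes
`P = {(x, z, w) : |v · x + w| ≤ 1 for v in V, |z| + |w| ≤ 1}`, with `V` the vertex set of a
regular polygon with an odd number of vertices.  Any centrally symmetric convex body whose
boundary complex is refined by that of `P` has at least `|V|` proper faces.
-/

set_option autoImplicit false
set_option linter.unusedSectionVars false

open Set Topology Filter

namespace Pool.Agent.Lib.MP_7600d1_co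

/-- The sign attached to a Boolean. -/
def sg (b : Bool) : ℝ := if b then 1 else -1

@[simp] theorem sg_true : sg true = 1 := rfl
@[simp] theorem sg_false : sg false = -1 := rfl

variable {V : Type} [Finite V] (p q : V → ℝ)

/-- The facet functionals of the example. -/
noncomputable def fn : (V × Bool) ⊕ (Bool × Bool) → StrongDual ℝ (EuclideanSpace ℝ (Fin 4))
  | Sum.inl (v, s) => sg s • (p v • EuclideanSpace.proj (0 : Fin 4) +
      q v • EuclideanSpace.proj (1 : Fin 4) + EuclideanSpace.proj (3 : Fin 4))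
  | Sum.inr (s, t) => sg s • EuclideanSpace.proj (2 : Fin 4) + sg t • EuclideanSpace.proj (3 : Fin 4)

theorem fn_inl (v : V) (s : Bool) (x : EuclideanSpace ℝ (Fin 4)) :
    fn p q (Sum.inl (v, s)) x = sg s * (p v * x 0 + q v * x 1 + x 3) := by
  simp [fn, mul_add]

theorem fn_inr (s t : Bool) (x : EuclideanSpace ℝ (Fin 4)) :
    fn p q (Sum.inr (s, t)) x = sg s * x 2 + sg t * x 3 := by
  simp [fn]

/-- Hypotheses on the planar configuration. -/
structure Good : Prop where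
  unit : ∀ v, p v * p v + q v * q v = 1
  dot : ∀ u v, u ≠ v → |p u * p v + q u * q v| < 1
  mid : ∀ u v, u ≠ v → ∃ (m : V) (c : ℝ), |c| < 1 ∧ p u + p v = 2 * c * p m ∧
    q u + q v = 2 * c * q m

variable {p q}

theorem Good.dot_le (h : Good p q) (u v : V) : |p u * p v + q u * q v| ≤ 1 := by
  by_cases huv : u = v
  · rw [huv, h.unit]; simp
  · exact (h.dot u v huv).le

/-- Generic points on the facets. -/
noncomputable def gpt (p q : V → ℝ) : (V × Bool) ⊕ (Bool × Bool) → EuclideanSpace ℝ (Fin 4)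
  | Sum.inl (v, s) => !₂[sg s * p v, sg s * q v, 0, 0]
  | Sum.inr (s, t) => !₂[0, 0, sg s / 2, sg t / 2]

theorem Good.g1 (h : Good p q) (i : (V × Bool) ⊕ (Bool × Bool)) :
    fn p q i (gpt p q i) = 1 := by
  rcases i with ⟨v, s⟩ | ⟨s, t⟩
  · have := h.unit v
    cases s <;> simp [fn_inl, gpt] <;> linarith
  · cases s <;> cases t <;> simp [fn_inr, gpt] <;> norm_num

theorem Good.g2 (h : Good p q) (i j : (V × Bool) ⊕ (Bool × Bool)) (hji : j ≠ i) :
    fn p q j (gpt p q i) < 1 := by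
  rcases i with ⟨v, s⟩ | ⟨s, t⟩ <;> rcases j with ⟨u, s'⟩ | ⟨s', t'⟩
  · by_cases huv : u = v
    · subst huv
      have := h.unit u
      cases s <;> cases s' <;> simp [fn_inl, gpt] at hji ⊢ <;> linarith
    · have := abs_lt.1 (h.dot u v huv)
      cases s <;> cases s' <;> simp [fn_inl, gpt] <;> linarith [this.1, this.2]
  · simp [fn_inr, gpt]
  · cases s' <;> cases t <;> simp [fn_inl, gpt] <;> norm_num
  · cases s <;> cases t <;> cases s' <;> cases t' <;> simp [fn_inr, gpt] at hji ⊢ <;> norm_num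

theorem Good.mem_side (h : Good p q) (v : V) (s t : Bool) :
    (!₂[sg s * p v, sg s * q v, sg t, 0] : EuclideanSpace ℝ (Fin 4)) ∈ hpoly (fn p q) := by
  rintro (⟨u, s'⟩ | ⟨s', t'⟩)
  · have := abs_le.1 (h.dot_le u v)
    cases s <;> cases s' <;> simp [fn_inl] <;> linarith [this.1, this.2]
  · cases t <;> cases s' <;> simp [fn_inr]

theorem mem_pole (t : Bool) :
    (!₂[0, 0, 0, sg t] : EuclideanSpace ℝ (Fin 4)) ∈ hpoly (fn p q) := by
  rintro (⟨u, s'⟩ | ⟨s', t'⟩)
  · cases t <;> cases s' <;> simp [fn_inl]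
  · cases t <;> cases t' <;> simp [fn_inr]

theorem mem_top (t : Bool) :
    (!₂[0, 0, sg t, 0] : EuclideanSpace ℝ (Fin 4)) ∈ hpoly (fn p q) := by
  rintro (⟨u, s'⟩ | ⟨s', t'⟩)
  · simp [fn_inl]
  · cases t <;> cases s' <;> simp [fn_inr]

theorem Good.meet_lr (h : Good p q) (v : V) (s t u : Bool) :
    Meet (fn p q) (Sum.inl (v, s)) (Sum.inr (t, u)) := by
  refine ⟨_, h.mem_side v s t, ?_, ?_⟩
  · have := h.unit v
    cases s <;> simp [fn_inl] <;> linarith
  · cases t <;> simp [fn_inr]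

theorem meet_symm {E : Type*} [NormedAddCommGroup E] [NormedSpace ℝ E] {ι : Type*}
    {a : ι → StrongDual ℝ E} {i j : ι} (h : Meet a i j) : Meet a j i := by
  obtain ⟨x, hx, h1, h2⟩ := h
  exact ⟨x, hx, h2, h1⟩

theorem meet_ll (u v : V) (s : Bool) : Meet (fn p q) (Sum.inl (u, s)) (Sum.inl (v, s)) := by
  refine ⟨_, mem_pole s, ?_, ?_⟩ <;> cases s <;> simp [fn_inl]

theorem meet_rr (s t s' t' : Bool) (h : s = s' ∨ t = t') :
    Meet (fn p q) (Sum.inr (s, t)) (Sum.inr (s', t')) := by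
  rcases h with rfl | rfl
  · refine ⟨_, mem_top s, ?_, ?_⟩ <;> cases s <;> simp [fn_inr]
  · refine ⟨_, mem_pole t, ?_, ?_⟩ <;> cases t <;> simp [fn_inr]

theorem Good.eq_of_not_meet (h : Good p q) (s t : Bool) (j : (V × Bool) ⊕ (Bool × Bool))
    (hj : ¬ Meet (fn p q) (Sum.inr (s, t)) j) : j = Sum.inr (!s, !t) := by
  rcases j with ⟨v, s'⟩ | ⟨s', t'⟩
  · exact absurd (meet_symm (h.meet_lr v s' s t)) hj
  · by_contra hne
    apply hj
    apply meet_rr
    revert hne
    cases s <;> cases t <;> cases s' <;> cases t' <;> simp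

theorem Good.no_point (h : Good p q) {u v : V} (huv : u ≠ v) {x : EuclideanSpace ℝ (Fin 4)}
    (hx : x ∈ hpoly (fn p q)) (h1 : fn p q (Sum.inr (true, true)) x = 1)
    (h2 : fn p q (Sum.inr (true, false)) x = 1) (h3 : fn p q (Sum.inl (u, true)) x = 1)
    (h4 : fn p q (Sum.inl (v, true)) x = 1) : False := by
  obtain ⟨m, c, hc, hp, hq⟩ := h.mid u v huv
  have h5 := hx (Sum.inl (m, true))
  have h6 := hx (Sum.inl (m, false))
  simp only [fn_inl, fn_inr, sg_true, sg_false] at h1 h2 h3 h4 h5 h6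
  have hw : x 3 = 0 := by linarith
  have e : c * (p m * x 0 + q m * x 1) = 1 := by
    have : (p u + p v) * x 0 + (q u + q v) * x 1 = 2 := by linarith
    rw [hp, hq] at this
    linarith
  have hc' := abs_lt.1 hc
  have hb1 : p m * x 0 + q m * x 1 ≤ 1 := by linarith
  have hb2 : -1 ≤ p m * x 0 + q m * x 1 := by linarith
  generalize p m * x 0 + q m * x 1 = y at e hb1 hb2
  by_cases hc0 : 0 ≤ c
  · nlinarith [hc'.2, mul_nonneg hc0 (sub_nonneg.2 hb1)]
  · have hc1 : 0 ≤ -c := by linarith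
    have hb3 : 0 ≤ y + 1 := by linarith
    nlinarith [hc'.1, mul_nonneg hc1 hb3]

theorem Good.isCompact (h : Good p q) {u v : V} (huv : u ≠ v) : IsCompact (hpoly (fn p q)) := by
  refine Metric.isCompact_of_isClosed_isBounded (hpoly_isClosed _) ?_
  set D := 1 - (p u * p v + q u * q v) ^ 2 with hD
  have hDpos : 0 < D := by
    have := abs_lt.1 (h.dot u v huv)
    nlinarith [this.1, this.2]
  refine (Metric.isBounded_closedBall (x := (0 : EuclideanSpace ℝ (Fin 4)))
    (r := Real.sqrt (16 / D + 2))).subset ?_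
  intro x hx
  rw [mem_closedBall_zero_iff]
  apply Real.le_sqrt_of_sq_le
  rw [EuclideanSpace.real_norm_sq_eq, Fin.sum_univ_four]
  have h1 := hx (Sum.inl (u, true))
  have h2 := hx (Sum.inl (u, false))
  have h3 := hx (Sum.inl (v, true))
  have h4 := hx (Sum.inl (v, false))
  have h5 := hx (Sum.inr (true, true))
  have h6 := hx (Sum.inr (true, false))
  have h7 := hx (Sum.inr (false, true))
  have h8 := hx (Sum.inr (false, false))
  simp only [fn_inl, fn_inr, sg_true, sg_false] at h1 h2 h3 h4 h5 h6 h7 h8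
  have hz : x 2 ^ 2 ≤ 1 := by nlinarith
  have hw : x 3 ^ 2 ≤ 1 := by nlinarith
  set α := p u * x 0 + q u * x 1 with hα
  set β := p v * x 0 + q v * x 1 with hβ
  have hα2 : α ^ 2 ≤ 4 := by nlinarith
  have hβ2 : β ^ 2 ≤ 4 := by nlinarith
  have hu := h.unit u
  have hv := h.unit v
  have hc := abs_le.1 (h.dot_le u v)
  have key : D * (x 0 ^ 2 + x 1 ^ 2) = α ^ 2 + β ^ 2 - 2 * (p u * p v + q u * q v) * α * β := by
    rw [hD, hα, hβ]
    have e1 : (1 : ℝ) = (p u * p u + q u * q u) * (p v * p v + q v * q v) := by rw [hu, hv]; ring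
    have e2 : (p u * x 0 + q u * x 1) ^ 2 + (p v * x 0 + q v * x 1) ^ 2 =
        (p v * p v + q v * q v) * (p u * x 0 + q u * x 1) ^ 2 +
        (p u * p u + q u * q u) * (p v * x 0 + q v * x 1) ^ 2 := by rw [hu, hv]; ring
    rw [e2]
    nth_rewrite 1 [e1]
    ring
  have hb : D * (x 0 ^ 2 + x 1 ^ 2) ≤ 16 := by
    rw [key]
    nlinarith [sq_nonneg (α + β), sq_nonneg (α - β), hc.1, hc.2]
  have : x 0 ^ 2 + x 1 ^ 2 ≤ 16 / D := by
    rw [le_div_iff₀ hDpos]; linarith
  linarith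

theorem zero_mem_interior : (0 : EuclideanSpace ℝ (Fin 4)) ∈ interior (hpoly (fn p q)) :=
  mem_interior_hpoly _ fun i => by simp

theorem neg_mem {x : EuclideanSpace ℝ (Fin 4)} (hx : x ∈ hpoly (fn p q)) :
    (2 : ℝ) • (0 : EuclideanSpace ℝ (Fin 4)) - x ∈ hpoly (fn p q) := by
  rintro (⟨u, s⟩ | ⟨s, t⟩)
  · have := hx (Sum.inl (u, !s))
    cases s <;> simp [fn_inl] at this ⊢ <;> linarith
  · have := hx (Sum.inr (!s, !t))
    cases s <;> cases t <;> simp [fn_inr] at this ⊢ <;> linarith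

/-- Distinct side facets are carried by distinct faces of the target. -/
theorem Good.not_covers_two (h : Good p q) {Q : Set (EuclideanSpace ℝ (Fin 4))}
    {φ : ↥(frontier (hpoly (fn p q))) ≃ₜ ↥(frontier Q)} (hφ : Refines (hpoly (fn p q)) Q φ)
    (hQc : IsClosed Q) (hQ : Convex ℝ Q) (hint : (interior Q).Nonempty)
    {c : EuclideanSpace ℝ (Fin 4)} (hc : ∀ x ∈ Q, (2 : ℝ) • c - x ∈ Q)
    {F : Set (EuclideanSpace ℝ (Fin 4))} (hF : ProperFace Q F) {u v : V} (huv : u ≠ v)
    (hu : Covers (fn p q) φ F (Sum.inl (u, true)))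
    (hv : Covers (fn p q) φ F (Sum.inl (v, true))) : False := by
  have hg1 := h.g1
  have hg2 := h.g2
  -- faces carrying the two upper facets carry nothing else
  have hT : ∀ t : Bool, ∃ G, ProperFace Q G ∧ Covers (fn p q) φ G (Sum.inr (true, t)) ∧
      ∀ x : ↥(frontier (hpoly (fn p q))), (φ x : EuclideanSpace ℝ (Fin 4)) ∈ G →
        fn p q (Sum.inr (true, t)) x = 1 := by
    intro t
    obtain ⟨G, hG, hGc⟩ := exists_covers (gpt p q) hg1 hg2 hφ hQc hQ hint (Sum.inr (true, t))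
    refine ⟨G, hG, hGc, fun x hx => ?_⟩
    obtain ⟨j, hj⟩ := exists_opposite (gpt p q) hg1 hg2 hφ hQ hint hc hG hGc
    have hj1 := h.eq_of_not_meet _ _ j (hj _ hGc)
    obtain ⟨y, hy⟩ := thick_of_covers (gpt p q) hg1 hg2 hGc
    obtain ⟨i, hi, hic⟩ := exists_covers_of_thick (gpt p q) hg1 hg2 hφ hQ hint hG hy x hx
    have hi1 : ¬ Meet (fn p q) (Sum.inr (!true, !t)) i := fun hm => hj i hic (hj1 ▸ meet_symm hm)
    have hi2 := h.eq_of_not_meet _ _ i hi1
    simp only [Bool.not_not] at hi2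
    rw [← hi2]; exact hi
  obtain ⟨G₁, hG₁, hG₁c, hG₁s⟩ := hT true
  obtain ⟨G₂, hG₂, hG₂c, hG₂s⟩ := hT false
  -- the face F carries only side facets through the north pole
  have hFs : ∀ x : ↥(frontier (hpoly (fn p q))), (φ x : EuclideanSpace ℝ (Fin 4)) ∈ F →
      ∃ w, fn p q (Sum.inl (w, true)) x = 1 := by
    intro x hx
    obtain ⟨j, hj⟩ := exists_opposite (gpt p q) hg1 hg2 hφ hQ hint hc hF hu
    obtain ⟨y, hy⟩ := thick_of_covers (gpt p q) hg1 hg2 hu
    obtain ⟨i, hi, hic⟩ := exists_covers_of_thick (gpt p q) hg1 hg2 hφ hQ hint hF hy x hx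
    have hju := hj _ hu
    have hji := hj _ hic
    rcases j with ⟨w', s⟩ | ⟨s, t⟩
    · cases s
      · rcases i with ⟨w, s'⟩ | ⟨s', t'⟩
        · cases s'
          · exact absurd (meet_ll w w' false) hji
          · exact ⟨w, hi⟩
        · exact absurd (meet_symm (h.meet_lr w' false s' t')) hji
      · exact absurd (meet_ll u w' true) hju
    · exact absurd (h.meet_lr u true s t) hju
  -- connectedness of the intersection of the three faces
  have hconv : Convex ℝ (F ∩ G₁ ∩ G₂) :=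
    ((hF.2.2.convex hQ).inter (hG₁.2.2.convex hQ)).inter (hG₂.2.2.convex hQ)
  have hsub : F ∩ G₁ ∩ G₂ ⊆ frontier Q := fun y hy => hF.subset_frontier hy.1.1
  have hpre1 : IsPreconnected
      ((Subtype.val : ↥(frontier Q) → EuclideanSpace ℝ (Fin 4)) ⁻¹' (F ∩ G₁ ∩ G₂)) := by
    rw [← Topology.IsInducing.subtypeVal.isPreconnected_image, Subtype.image_preimage_coe,
      inter_eq_right.2 hsub]
    exact hconv.isPreconnected
  have hpre2 := hpre1.image (fun y => (φ.symm y : EuclideanSpace ℝ (Fin 4)))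
    (continuous_subtype_val.comp φ.symm.continuous).continuousOn
  have hpt : ∀ w, Covers (fn p q) φ F (Sum.inl (w, true)) → ∃ x ∈
      (fun y => (φ.symm y : EuclideanSpace ℝ (Fin 4))) ''
        ((Subtype.val : ↥(frontier Q) → EuclideanSpace ℝ (Fin 4)) ⁻¹' (F ∩ G₁ ∩ G₂)),
      fn p q (Sum.inl (w, true)) x = 1 := by
    intro w hw
    have hm := h.mem_side w true true
    have e1 : fn p q (Sum.inl (w, true)) !₂[sg true * p w, sg true * q w, sg true, 0] = 1 := by
      have := h.unit w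
      simp [fn_inl]; linarith
    have e2 : ∀ t, fn p q (Sum.inr (true, t)) !₂[sg true * p w, sg true * q w, sg true, 0] = 1 := by
      intro t; simp [fn_inr]
    let x : ↥(frontier (hpoly (fn p q))) := ⟨_, (mem_frontier_hpoly _).2 ⟨hm, _, e1⟩⟩
    refine ⟨x, ⟨φ x, ⟨⟨hw x e1, hG₁c x (e2 _)⟩, hG₂c x (e2 _)⟩, by simp⟩, e1⟩
  have hcl1 : IsClosed {x : EuclideanSpace ℝ (Fin 4) | fn p q (Sum.inl (u, true)) x = 1} :=
    isClosed_eq (fn p q _).continuous continuous_const
  have hcl2 : IsClosed (⋃ w : {w : V // w ≠ u},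
      {x : EuclideanSpace ℝ (Fin 4) | fn p q (Sum.inl (w.1, true)) x = 1}) :=
    isClosed_iUnion_of_finite fun w => isClosed_eq (fn p q _).continuous continuous_const
  obtain ⟨x, ⟨y, hy, rfl⟩, hx1, hx2⟩ := isPreconnected_closed_iff.1 hpre2 _ _ hcl1 hcl2
    (by
      rintro _ ⟨y, hy, rfl⟩
      obtain ⟨w, hw⟩ := hFs (φ.symm y) (by simpa using hy.1.1)
      by_cases hwu : w = u
      · left; rw [← hwu]; exact hw
      · right; exact mem_iUnion.2 ⟨⟨w, hwu⟩, hw⟩)
    (by
      obtain ⟨x, hx, hx'⟩ := hpt u hu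
      exact ⟨x, hx, hx'⟩)
    (by
      obtain ⟨x, hx, hx'⟩ := hpt v hv
      exact ⟨x, hx, mem_iUnion.2 ⟨⟨v, huv.symm⟩, hx'⟩⟩)
  obtain ⟨w, hw⟩ := mem_iUnion.1 hx2
  exact h.no_point w.2.symm ((mem_frontier_hpoly _).1 (φ.symm y).2).1
    (hG₁s (φ.symm y) (by simpa using hy.1.2)) (hG₂s (φ.symm y) (by simpa using hy.2)) hx1 hw

/-- The vertices of a regular polygon with an odd number of vertices. -/
theorem exists_good (n : ℕ) : ∃ (V : Type) (_ : Finite V) (p q : V → ℝ),
    n ≤ Nat.card V ∧ Good p q := by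
  set k := 2 * n + 1 with hk
  have hk0 : k ≠ 0 := by omega
  have : NeZero k := ⟨hk0⟩
  have hnorm : ∀ z : ℂ, z ^ k = 1 → z.re * z.re + z.im * z.im = 1 := by
    intro z hz
    have h1 : ‖z‖ = 1 := Complex.norm_eq_one_of_pow_eq_one hz hk0
    have h2 := Complex.sq_norm z
    rw [h1, Complex.normSq_apply] at h2
    linarith
  have hre : ∀ z : ℂ, z ^ k = 1 → z ≠ 1 → |z.re| < 1 := by
    intro z hz hz1
    have h1 := hnorm z hz
    have him : z.im ≠ 0 := by
      intro h0
      rw [h0] at h1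
      have h2 : (z.re - 1) * (z.re + 1) = 0 := by linarith
      rcases mul_eq_zero.1 h2 with h3 | h3
      · apply hz1
        apply Complex.ext <;> simp [h0]
        linarith
      · have : z = -1 := by
          apply Complex.ext <;> simp [h0]
          linarith
        rw [this, hk, pow_succ, pow_mul] at hz
        norm_num at hz
    have := mul_self_pos.2 him
    rw [abs_lt]
    constructor <;> nlinarith
  have hval : ∀ u : rootsOfUnity k ℂ, ((u : ℂˣ) : ℂ) ^ k = 1 := fun u =>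
    (mem_rootsOfUnity' k _).1 u.2
  have hinv : ∀ u : rootsOfUnity k ℂ, (((u⁻¹ : rootsOfUnity k ℂ) : ℂˣ) : ℂ) =
      (starRingEnd ℂ) ((u : ℂˣ) : ℂ) := by
    intro u
    have h1 : ‖((u : ℂˣ) : ℂ)‖ = 1 := Complex.norm_eq_one_of_pow_eq_one (hval u) hk0
    rw [← Complex.inv_eq_conj h1]
    simp
  have hne1 : ∀ u : rootsOfUnity k ℂ, u ≠ 1 → ((u : ℂˣ) : ℂ) ≠ 1 := by
    intro u hu h1
    apply hu
    ext
    simpa using h1
  refine ⟨rootsOfUnity k ℂ, inferInstance, fun u => ((u : ℂˣ) : ℂ).re, fun u => ((u : ℂˣ) : ℂ).im,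
    ?_, ⟨fun u => hnorm _ (hval u), ?_, ?_⟩⟩
  · rw [Complex.card_rootsOfUnity]; omega
  · intro u v huv
    have h1 := hre _ (hval (u * v⁻¹)) (hne1 _ (fun h => huv (mul_inv_eq_one.1 h)))
    have h2 : (((u * v⁻¹ : rootsOfUnity k ℂ) : ℂˣ) : ℂ) =
        ((u : ℂˣ) : ℂ) * (starRingEnd ℂ) ((v : ℂˣ) : ℂ) := by
      rw [← hinv]; simp
    rw [h2] at h1
    simpa using h1
  · intro u v huv
    set m : rootsOfUnity k ℂ := (u * v) ^ (n + 1) with hm
    have hpow : ∀ w : rootsOfUnity k ℂ, w ^ k = 1 := fun w => by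
      ext; simpa using hval w
    have hm2 : m * m = u * v := by
      rw [hm, ← pow_add]
      have : n + 1 + (n + 1) = k + 1 := by omega
      rw [this, pow_succ, hpow, one_mul]
    set r : rootsOfUnity k ℂ := u * m⁻¹ with hr
    have hu : u = m * r := by rw [hr, mul_comm u, mul_inv_cancel_left]
    have hv : v = m * r⁻¹ := by
      rw [hr, mul_inv_rev, inv_inv, ← mul_assoc, hm2, mul_comm u v, mul_inv_cancel_right]
    have hr1 : r ≠ 1 := by
      intro h1
      apply huv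
      rw [hu, hv, h1, inv_one]
    have hu' : ((u : ℂˣ) : ℂ) = ((m : ℂˣ) : ℂ) * ((r : ℂˣ) : ℂ) := by
      conv_lhs => rw [hu]
      simp
    have hv' : ((v : ℂˣ) : ℂ) = ((m : ℂˣ) : ℂ) * (starRingEnd ℂ) ((r : ℂˣ) : ℂ) := by
      conv_lhs => rw [hv]
      rw [← hinv]; simp
    refine ⟨m, ((r : ℂˣ) : ℂ).re, hre _ (hval r) (hne1 r hr1), ?_, ?_⟩
    · simp only [hu', hv', Complex.mul_re, Complex.conj_re, Complex.conj_im]; ring
    · simp only [hu', hv', Complex.mul_im, Complex.conj_re, Complex.conj_im]; ring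

end Pool.Agent.Lib.MP_7600d1_co
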