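import Mathlib
import Pool.Agent.Lib.MP_7600d1_co.Example

/-!
Products of the four-dimensional examples with a cube: in every dimension `d ≥ 4`, a centrally
symmetric convex body whose boundary complex is refined by that of the product has at least
`|V|` proper faces.
-/

set_option autoImplicit false
set_option linter.unusedSectionVars false

open Set Topology Filter

namespace Pool.Agent.Lib.MP_7600d1_co

variable {d : ℕ} (hd : 4 ≤ d)

/-- Projection to the first four coordinates. -/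
noncomputable def pr4 : EuclideanSpace ℝ (Fin d) →L[ℝ] EuclideanSpace ℝ (Fin 4) :=
  (EuclideanSpace.equiv (Fin 4) ℝ).symm.toContinuousLinearMap.comp
    (ContinuousLinearMap.pi fun i : Fin 4 => EuclideanSpace.proj (Fin.castLE hd i))

theorem pr4_apply (x : EuclideanSpace ℝ (Fin d)) (i : Fin 4) :
    pr4 hd x i = x (Fin.castLE hd i) := by
  simp [pr4]

/-- The point with first four coordinates `y` and the others given by `r`. -/
noncomputable def lift4 (y : EuclideanSpace ℝ (Fin 4)) (r : Fin d → ℝ) :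
    EuclideanSpace ℝ (Fin d) :=
  WithLp.toLp 2 fun j => if h : j.val < 4 then y ⟨j.val, h⟩ else r j

theorem pr4_lift4 (y : EuclideanSpace ℝ (Fin 4)) (r : Fin d → ℝ) :
    pr4 hd (lift4 y r) = y := by
  ext i
  rw [pr4_apply]
  simp [lift4]

theorem lift4_high (y : EuclideanSpace ℝ (Fin 4)) (r : Fin d → ℝ) (j : Fin d) (hj : 4 ≤ j.val) :
    lift4 y r j = r j := by
  have : ¬ j.val < 4 := by omega
  simp [lift4, this]

variable {V : Type} [Finite V] (p q : V → ℝ)

/-- The facet functionals of the product of the example with a cube. -/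
noncomputable def fnD : ((V × Bool) ⊕ (Bool × Bool)) ⊕ ({j : Fin d // 4 ≤ j.val} × Bool) →
    StrongDual ℝ (EuclideanSpace ℝ (Fin d))
  | Sum.inl i => (fn p q i).comp (pr4 hd)
  | Sum.inr (j, s) => sg s • EuclideanSpace.proj j.1

theorem fnD_inl (i : (V × Bool) ⊕ (Bool × Bool)) (x : EuclideanSpace ℝ (Fin d)) :
    fnD hd p q (Sum.inl i) x = fn p q i (pr4 hd x) := rfl

theorem fnD_inr (j : {j : Fin d // 4 ≤ j.val}) (s : Bool) (x : EuclideanSpace ℝ (Fin d)) :
    fnD hd p q (Sum.inr (j, s)) x = sg s * x j.1 := by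
  simp [fnD]

variable {p q}

theorem pr4_mem {x : EuclideanSpace ℝ (Fin d)} (hx : x ∈ hpoly (fnD hd p q)) :
    pr4 hd x ∈ hpoly (fn p q) := fun i => hx (Sum.inl i)

theorem lift4_mem {y : EuclideanSpace ℝ (Fin 4)} (hy : y ∈ hpoly (fn p q)) {r : Fin d → ℝ}
    (hr : ∀ j, |r j| ≤ 1) : lift4 y r ∈ hpoly (fnD hd p q) := by
  rintro (i | ⟨j, s⟩)
  · rw [fnD_inl, pr4_lift4]; exact hy i
  · rw [fnD_inr, lift4_high y r j.1 j.2]
    have := abs_le.1 (hr j.1)
    cases s <;> simp <;> linarith [this.1, this.2]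

/-- Generic points on the facets of the product. -/
noncomputable def gptD (p q : V → ℝ) :
    ((V × Bool) ⊕ (Bool × Bool)) ⊕ ({j : Fin d // 4 ≤ j.val} × Bool) → EuclideanSpace ℝ (Fin d)
  | Sum.inl i => lift4 (gpt p q i) fun _ => 0
  | Sum.inr (j, s) => lift4 0 fun k => if k = j.1 then sg s else 0

theorem Good.gD1 (h : Good p q)
    (i : ((V × Bool) ⊕ (Bool × Bool)) ⊕ ({j : Fin d // 4 ≤ j.val} × Bool)) :
    fnD hd p q i (gptD p q i) = 1 := by
  rcases i with i | ⟨j, s⟩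
  · simp only [gptD]
    rw [fnD_inl, pr4_lift4]; exact h.g1 i
  · simp only [gptD]
    rw [fnD_inr, lift4_high _ _ j.1 j.2]
    cases s <;> simp

theorem Good.gD2 (h : Good p q)
    (i j : ((V × Bool) ⊕ (Bool × Bool)) ⊕ ({j : Fin d // 4 ≤ j.val} × Bool)) (hji : j ≠ i) :
    fnD hd p q j (gptD p q i) < 1 := by
  rcases i with i | ⟨k, s⟩ <;> rcases j with j | ⟨l, t⟩
  · simp only [gptD]
    rw [fnD_inl, pr4_lift4]
    exact h.g2 i j fun e => hji (by rw [e])
  · simp only [gptD]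
    rw [fnD_inr, lift4_high _ _ l.1 l.2]
    simp
  · simp only [gptD]
    rw [fnD_inl, pr4_lift4]
    simp
  · simp only [gptD]
    rw [fnD_inr, lift4_high _ _ l.1 l.2]
    by_cases hlk : l.1 = k.1
    · have e : l = k := Subtype.ext hlk
      subst e
      cases s <;> cases t <;> simp at hji ⊢
    · simp [hlk]

theorem meet_lift {i j : (V × Bool) ⊕ (Bool × Bool)} (hm : Meet (fn p q) i j) :
    Meet (fnD hd p q) (Sum.inl i) (Sum.inl j) := by
  obtain ⟨y, hy, h1, h2⟩ := hm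
  refine ⟨lift4 y fun _ => 0, lift4_mem hd hy (by simp), ?_, ?_⟩
  · rw [fnD_inl, pr4_lift4]; exact h1
  · rw [fnD_inl, pr4_lift4]; exact h2

theorem Good.meet_cube (h : Good p q) (i : (V × Bool) ⊕ (Bool × Bool))
    (k : {j : Fin d // 4 ≤ j.val} × Bool) : Meet (fnD hd p q) (Sum.inl i) (Sum.inr k) := by
  obtain ⟨k, s⟩ := k
  refine ⟨lift4 (gpt p q i) fun _ => sg s,
    lift4_mem hd (g_mem (gpt p q) h.g1 h.g2 i) (by cases s <;> simp), ?_, ?_⟩
  · rw [fnD_inl, pr4_lift4]; exact h.g1 i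
  · rw [fnD_inr, lift4_high _ _ k.1 k.2]
    cases s <;> simp

theorem Good.eqD_of_not_meet (h : Good p q) (s t : Bool)
    (j : ((V × Bool) ⊕ (Bool × Bool)) ⊕ ({j : Fin d // 4 ≤ j.val} × Bool))
    (hj : ¬ Meet (fnD hd p q) (Sum.inl (Sum.inr (s, t))) j) : j = Sum.inl (Sum.inr (!s, !t)) := by
  rcases j with j | k
  · rw [h.eq_of_not_meet s t j fun hm => hj (meet_lift hd hm)]
  · exact absurd (h.meet_cube hd _ k) hj

theorem Good.isCompactD (h : Good p q) {u v : V} (huv : u ≠ v) :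
    IsCompact (hpoly (fnD hd p q)) := by
  refine Metric.isCompact_of_isClosed_isBounded (hpoly_isClosed _) ?_
  obtain ⟨R, hR⟩ := (h.isCompact huv).isBounded.exists_norm_le
  refine (Metric.isBounded_closedBall (x := (0 : EuclideanSpace ℝ (Fin d)))
    (r := Real.sqrt (∑ _j : Fin d, (R ^ 2 + 1)))).subset ?_
  intro x hx
  rw [mem_closedBall_zero_iff]
  apply Real.le_sqrt_of_sq_le
  rw [EuclideanSpace.real_norm_sq_eq]
  refine Finset.sum_le_sum fun j _ => ?_
  by_cases hj : j.val < 4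
  · have h1 := hR _ (pr4_mem hd hx)
    have h2 := PiLp.norm_apply_le (pr4 hd x) ⟨j.val, hj⟩
    rw [pr4_apply] at h2
    have h3 : Fin.castLE hd ⟨j.val, hj⟩ = j := Fin.ext rfl
    rw [h3, Real.norm_eq_abs] at h2
    have h4 : |x j| ≤ R := h2.trans h1
    have h5 := sq_le_sq' (by linarith [abs_nonneg (x j)] : -R ≤ |x j|) h4
    rw [sq_abs] at h5
    linarith
  · have h1 := hx (Sum.inr (⟨j, by omega⟩, true))
    have h2 := hx (Sum.inr (⟨j, by omega⟩, false))
    simp only [fnD_inr, sg_true, sg_false] at h1 h2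
    nlinarith [sq_nonneg R]

theorem zero_mem_interiorD : (0 : EuclideanSpace ℝ (Fin d)) ∈ interior (hpoly (fnD hd p q)) :=
  mem_interior_hpoly _ fun i => by simp

theorem neg_memD {x : EuclideanSpace ℝ (Fin d)} (hx : x ∈ hpoly (fnD hd p q)) :
    -x ∈ hpoly (fnD hd p q) := by
  rintro (i | ⟨j, s⟩)
  · have := neg_mem (pr4_mem hd hx) i
    rw [fnD_inl, map_neg]
    simpa using this
  · have := hx (Sum.inr (j, !s))
    rw [fnD_inr] at this ⊢
    cases s <;> simp at this ⊢ <;> linarith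

/-- Distinct side facets of the product are carried by distinct faces of the target. -/
theorem Good.not_covers_twoD (h : Good p q) {Q : Set (EuclideanSpace ℝ (Fin d))}
    {φ : ↥(frontier (hpoly (fnD hd p q))) ≃ₜ ↥(frontier Q)}
    (hφ : Refines (hpoly (fnD hd p q)) Q φ)
    (hQc : IsClosed Q) (hQ : Convex ℝ Q) (hint : (interior Q).Nonempty)
    {c : EuclideanSpace ℝ (Fin d)} (hc : ∀ x ∈ Q, (2 : ℝ) • c - x ∈ Q)
    {F : Set (EuclideanSpace ℝ (Fin d))} (hF : ProperFace Q F) {u v : V} (huv : u ≠ v)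
    (hu : Covers (fnD hd p q) φ F (Sum.inl (Sum.inl (u, true))))
    (hv : Covers (fnD hd p q) φ F (Sum.inl (Sum.inl (v, true)))) : False := by
  have hg1 := h.gD1 hd
  have hg2 := h.gD2 hd
  have hT : ∀ t : Bool, ∃ G, ProperFace Q G ∧
      Covers (fnD hd p q) φ G (Sum.inl (Sum.inr (true, t))) ∧
      ∀ x : ↥(frontier (hpoly (fnD hd p q))), (φ x : EuclideanSpace ℝ (Fin d)) ∈ G →
        fnD hd p q (Sum.inl (Sum.inr (true, t))) x = 1 := by
    intro t
    obtain ⟨G, hG, hGc⟩ :=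
      exists_covers (gptD p q) hg1 hg2 hφ hQc hQ hint (Sum.inl (Sum.inr (true, t)))
    refine ⟨G, hG, hGc, fun x hx => ?_⟩
    obtain ⟨j, hj⟩ := exists_opposite (gptD p q) hg1 hg2 hφ hQ hint hc hG hGc
    have hj1 := h.eqD_of_not_meet hd _ _ j (hj _ hGc)
    obtain ⟨y, hy⟩ := thick_of_covers (gptD p q) hg1 hg2 hGc
    obtain ⟨i, hi, hic⟩ := exists_covers_of_thick (gptD p q) hg1 hg2 hφ hQ hint hG hy x hx
    have hi1 : ¬ Meet (fnD hd p q) (Sum.inl (Sum.inr (!true, !t))) i :=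
      fun hm => hj i hic (hj1 ▸ meet_symm hm)
    have hi2 := h.eqD_of_not_meet hd _ _ i hi1
    simp only [Bool.not_not] at hi2
    rw [← hi2]; exact hi
  obtain ⟨G₁, hG₁, hG₁c, hG₁s⟩ := hT true
  obtain ⟨G₂, hG₂, hG₂c, hG₂s⟩ := hT false
  have hFs : ∀ x : ↥(frontier (hpoly (fnD hd p q))), (φ x : EuclideanSpace ℝ (Fin d)) ∈ F →
      ∃ w, fnD hd p q (Sum.inl (Sum.inl (w, true))) x = 1 := by
    intro x hx
    obtain ⟨j, hj⟩ := exists_opposite (gptD p q) hg1 hg2 hφ hQ hint hc hF hu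
    obtain ⟨y, hy⟩ := thick_of_covers (gptD p q) hg1 hg2 hu
    obtain ⟨i, hi, hic⟩ := exists_covers_of_thick (gptD p q) hg1 hg2 hφ hQ hint hF hy x hx
    have hju := hj _ hu
    have hji := hj _ hic
    rcases j with (⟨w', s⟩ | ⟨s, t⟩) | k
    · cases s
      · rcases i with (⟨w, s'⟩ | ⟨s', t'⟩) | k
        · cases s'
          · exact absurd (meet_lift hd (meet_ll w w' false)) hji
          · exact ⟨w, hi⟩
        · exact absurd (meet_lift hd (meet_symm (h.meet_lr w' false s' t'))) hji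
        · exact absurd (meet_symm (h.meet_cube hd _ k)) hji
      · exact absurd (meet_lift hd (meet_ll u w' true)) hju
    · exact absurd (meet_lift hd (h.meet_lr u true s t)) hju
    · exact absurd (h.meet_cube hd _ k) hju
  have hconv : Convex ℝ (F ∩ G₁ ∩ G₂) :=
    ((hF.2.2.convex hQ).inter (hG₁.2.2.convex hQ)).inter (hG₂.2.2.convex hQ)
  have hsub : F ∩ G₁ ∩ G₂ ⊆ frontier Q := fun y hy => hF.subset_frontier hy.1.1
  have hpre1 : IsPreconnected
      ((Subtype.val : ↥(frontier Q) → EuclideanSpace ℝ (Fin d)) ⁻¹' (F ∩ G₁ ∩ G₂)) := by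
    rw [← Topology.IsInducing.subtypeVal.isPreconnected_image, Subtype.image_preimage_coe,
      inter_eq_right.2 hsub]
    exact hconv.isPreconnected
  have hpre2 := hpre1.image (fun y => (φ.symm y : EuclideanSpace ℝ (Fin d)))
    (continuous_subtype_val.comp φ.symm.continuous).continuousOn
  have hpt : ∀ w, Covers (fnD hd p q) φ F (Sum.inl (Sum.inl (w, true))) → ∃ x ∈
      (fun y => (φ.symm y : EuclideanSpace ℝ (Fin d))) ''
        ((Subtype.val : ↥(frontier Q) → EuclideanSpace ℝ (Fin d)) ⁻¹' (F ∩ G₁ ∩ G₂)),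
      fnD hd p q (Sum.inl (Sum.inl (w, true))) x = 1 := by
    intro w hw
    have hm := lift4_mem hd (h.mem_side w true true) (r := fun _ => 0) (by simp)
    have e1 : fnD hd p q (Sum.inl (Sum.inl (w, true)))
        (lift4 !₂[sg true * p w, sg true * q w, sg true, 0] fun _ => 0) = 1 := by
      have := h.unit w
      rw [fnD_inl, pr4_lift4]
      simp [fn_inl]; linarith
    have e2 : ∀ t, fnD hd p q (Sum.inl (Sum.inr (true, t)))
        (lift4 !₂[sg true * p w, sg true * q w, sg true, 0] fun _ => 0) = 1 := by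
      intro t
      rw [fnD_inl, pr4_lift4]
      simp [fn_inr]
    let x : ↥(frontier (hpoly (fnD hd p q))) := ⟨_, (mem_frontier_hpoly _).2 ⟨hm, _, e1⟩⟩
    refine ⟨x, ⟨φ x, ⟨⟨hw x e1, hG₁c x (e2 _)⟩, hG₂c x (e2 _)⟩, by simp⟩, e1⟩
  have hcl1 : IsClosed
      {x : EuclideanSpace ℝ (Fin d) | fnD hd p q (Sum.inl (Sum.inl (u, true))) x = 1} :=
    isClosed_eq (fnD hd p q _).continuous continuous_const
  have hcl2 : IsClosed (⋃ w : {w : V // w ≠ u},
      {x : EuclideanSpace ℝ (Fin d) | fnD hd p q (Sum.inl (Sum.inl (w.1, true))) x = 1}) :=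
    isClosed_iUnion_of_finite fun w => isClosed_eq (fnD hd p q _).continuous continuous_const
  obtain ⟨x, ⟨y, hy, rfl⟩, hx1, hx2⟩ := isPreconnected_closed_iff.1 hpre2 _ _ hcl1 hcl2
    (by
      rintro _ ⟨y, hy, rfl⟩
      obtain ⟨w, hw⟩ := hFs (φ.symm y) (by simpa using hy.1.1)
      by_cases hwu : w = u
      · left; rw [← hwu]; exact hw
      · right; exact mem_iUnion.2 ⟨⟨w, hwu⟩, hw⟩)
    (by
      obtain ⟨x, hx, hx'⟩ := hpt u hu
      exact ⟨x, hx, hx'⟩)
    (by
      obtain ⟨x, hx, hx'⟩ := hpt v hv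
      exact ⟨x, hx, mem_iUnion.2 ⟨⟨v, huv.symm⟩, hx'⟩⟩)
  obtain ⟨w, hw⟩ := mem_iUnion.1 hx2
  exact h.no_point w.2.symm (pr4_mem hd ((mem_frontier_hpoly _).1 (φ.symm y).2).1)
    (hG₁s (φ.symm y) (by simpa using hy.1.2)) (hG₂s (φ.symm y) (by simpa using hy.2)) hx1 hw

end Pool.Agent.Lib.MP_7600d1_co
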